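import Pool.Agent.TH575.CovFin

/-!
# Minimum `p^n`-covers have order at most `p^F(n)`

There is a function `F : ℕ → ℕ` such that, for every prime `p` and every `n ≥ 1`, the smallest
order `m(p,n)` of a finite group containing (a copy of) every group of order `p^n` satisfies
`m(p,n) ≤ p^F(n)`.

Idea of the proof.  Call `f : P → ZMod (p^n)` polynomial of degree `< d` if all its `d`-fold
differences vanish.  By induction on `n` one shows that there are a degree `D` and a bound `p₀`,
depending on `n` only, such that for all primes `p ≥ p₀` the polynomial functions of degree `< D`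
on any group `P` of order `p^n` separate the points of `P` from `1`.  Then `P` acts faithfully on
an abelian group of order at most `p^b` where `b` depends on `n` only.
-/

namespace Pool.Agent.Results.MP_1000ca_al.CoverBound

/-- `G` contains a copy of every group of order `p ^ n`. -/
def IsCover (p n : ℕ) (G : Type) [Group G] : Prop :=
  ∀ (H : Type) [Group H], Nat.card H = p ^ n → ∃ φ : H →* G, Function.Injective φ

/-- The set of orders of finite `p ^ n`-covers. -/
def coverOrders (p n : ℕ) : Set ℕ :=
  {k | ∃ (G : Type) (_ : Group G), Finite G ∧ Nat.card G = k ∧ IsCover p n G}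

/-- The order `m(p,n)` of a minimum `p ^ n`-cover. -/
noncomputable def minCover (p n : ℕ) : ℕ := sInf (coverOrders p n)

theorem coverOrders_nonempty {p : ℕ} (hp : p.Prime) (n : ℕ) : (coverOrders p n).Nonempty := by
  refine ⟨Nat.card (Equiv.Perm (Fin (p ^ n))), Equiv.Perm (Fin (p ^ n)), inferInstance,
    inferInstance, rfl, ?_⟩
  intro H _ hH
  have hfin : Finite H := Nat.finite_of_card_ne_zero (by rw [hH]; exact pow_ne_zero _ hp.ne_zero)
  have e : H ≃ Fin (p ^ n) := Finite.equivFinOfCardEq hH
  refine ⟨e.permCongrHom.toMonoidHom.comp (MulAction.toPermHom H H), ?_⟩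
  rw [MonoidHom.coe_comp]
  exact (e.permCongrHom.injective).comp MulAction.toPerm_injective

/-- **There is `F : ℕ → ℕ` with `m(p,n) ≤ p^F(n)` for every prime `p` and every `n ≥ 1`.** -/
theorem result : ∃ F : ℕ → ℕ, ∀ p n : ℕ, p.Prime → 1 ≤ n →
    IsLeast (coverOrders p n) (minCover p n) ∧ minCover p n ≤ p ^ F n := by
  have key : ∀ n : ℕ, ∃ K : ℕ, ∀ p : ℕ, p.Prime → minCover p n ≤ p ^ K := by
    intro n
    obtain ⟨b, p₀, h⟩ := TH575.Cov.main_bound n
    refine ⟨b * b * b * (b+1) ^ b + ∑ q ∈ Finset.range p₀, minCover q n, ?_⟩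
    intro p hp
    rcases lt_or_ge p p₀ with hlt | hge
    · have h1 : minCover p n ≤ ∑ q ∈ Finset.range p₀, minCover q n :=
        Finset.single_le_sum (f := fun q => minCover q n) (fun _ _ => Nat.zero_le _)
          (Finset.mem_range.2 hlt)
      calc minCover p n ≤ p ^ minCover p n := (Nat.lt_pow_self hp.one_lt).le
        _ ≤ _ := Nat.pow_le_pow_right hp.pos (h1.trans (Nat.le_add_left _ _))
    · obtain ⟨hfin, hcard⟩ := TH575.Cov.card_UU_le (b := b) hp
      have h1 : Nat.card (TH575.Cov.UU p b) ∈ coverOrders p n :=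
        ⟨TH575.Cov.UU p b, inferInstance, hfin, rfl, fun H _ hH => h p hp hge H hH⟩
      calc minCover p n ≤ Nat.card (TH575.Cov.UU p b) := Nat.sInf_le h1
        _ ≤ p ^ (b * b * b * (b+1) ^ b) := hcard
        _ ≤ _ := Nat.pow_le_pow_right hp.pos (Nat.le_add_right _ _)
  choose F hF using key
  refine ⟨F, fun p n hp _ => ⟨⟨Nat.sInf_mem (coverOrders_nonempty hp n), fun k hk => Nat.sInf_le hk⟩,
    hF n p hp⟩⟩

end Pool.Agent.Results.MP_1000ca_al.CoverBound
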